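import Pool.Agent.W558.WD.Stms
import Pool.Agent.W558.S.All
import Pool.Agent.W440.RS.Fn

/-!
# Functions without poles in codimension one outside of the boundary have monomial denominators
-/

set_option autoImplicit false

universe u

open Pool.Agent.W558 Pool.Agent.W440.RS

namespace Pool.Agent.W417.WD

theorem po_aux {k E : Type u} [Field k] [Field E] [Algebra k E] [PerfectField k]
    (htr : Algebra.trdeg k E = 2) (s : SM k E) (f : E)
    (hCO : ∀ W, s.Dv W → s.Bdy W ∨ f ∈ W) (t : s.T) (O : Subalgebra k E)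
    (hO : s.M.A t ≤ O) : ∃ z ∈ Submonoid.closure (bdy s.M O), f * z ∈ O := by
  classical
  by_cases hf : f = 0
  · refine ⟨1, Submonoid.one_mem _, ?_⟩
    rw [hf, zero_mul]
    exact O.zero_mem
  have hex : ∀ i, ∃ n : ℤ, IsDv (s.M.A t) (s.W i) → NU (s.W i) (s.M.x t i) →
      (∀ a ∈ s.M.A t, NU (s.W i) a → ∃ b ∈ s.M.A t, a = s.M.x t i * b) →
      f * s.M.x t i ^ (-n) ∈ s.W i := by
    intro i
    by_cases h : IsDv (s.M.A t) (s.W i) ∧ NU (s.W i) (s.M.x t i) ∧
      (∀ a ∈ s.M.A t, NU (s.W i) a → ∃ b ∈ s.M.A t, a = s.M.x t i * b)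
    · obtain ⟨h1, h2, h3⟩ := h
      obtain ⟨n, h4, -⟩ := exists_exp (s.sf t) h1.le (s.M.xA t i) (s.M.x0 t i) h2 h3 hf
      exact ⟨n, fun _ _ _ => h4⟩
    · exact ⟨0, fun h1 h2 h3 => absurd ⟨h1, h2, h3⟩ h⟩
  choose γ hγ using hex
  have h1 : f * ∏ i, s.M.x t i ^ (-γ i) ∈ s.M.A t := by
    refine mem_main all_par all_fin htr (s.sf t) (s.M.xA t) (s.M.x0 t) (s.M.snc t)
      (s.irr t) γ hγ ?_
    intro V hV
    rcases hCO V ⟨t, hV⟩ with ⟨t', i, h1, h2⟩ | h1
    · exact Or.inl ⟨i, (s.M.nu_iff hV.le h1.le i).2 h2⟩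
    · exact Or.inr h1
  refine ⟨∏ i, (if NU O (s.M.x t i) then s.M.x t i ^ (-γ i).toNat else 1), ?_, ?_⟩
  · refine Submonoid.prod_mem _ fun i _ => ?_
    split_ifs with hi
    · refine Submonoid.pow_mem _ (Submonoid.subset_closure ?_) _
      exact ⟨t, i, hO, hi, 1, O.one_mem, one_ne_zero, by rw [inv_one]; exact O.one_mem,
        (one_mul _).symm⟩
    · exact Submonoid.one_mem _
  · have h2 : f * ∏ i, (if NU O (s.M.x t i) then s.M.x t i ^ (-γ i).toNat else 1) =
        (f * ∏ i, s.M.x t i ^ (-γ i)) *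
          ∏ i, (s.M.x t i ^ (γ i) *
            (if NU O (s.M.x t i) then s.M.x t i ^ (-γ i).toNat else 1)) := by
      rw [mul_assoc, ← Finset.prod_mul_distrib]
      congr 1
      refine Finset.prod_congr rfl fun i _ => ?_
      rw [← mul_assoc, ← zpow_add₀ (s.M.x0 t i), neg_add_cancel, zpow_zero, one_mul]
    rw [h2]
    refine O.mul_mem (hO h1) (O.prod_mem fun i _ => ?_)
    have hx0 := s.M.x0 t i
    have hxO : s.M.x t i ∈ O := hO (s.M.xA t i)
    split_ifs with hi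
    · rw [← zpow_natCast, ← zpow_add₀ hx0]
      have h3 : γ i + ((-γ i).toNat : ℤ) = ((γ i + ((-γ i).toNat : ℤ)).toNat : ℤ) := by
        omega
      rw [h3, zpow_natCast]
      exact O.pow_mem hxO _
    · rw [mul_one]
      exact zpow_mem_of hxO (Or.inr (inv_mem_of_not_NU hxO hi))

theorem po {k E : Type u} [Field k] [Field E] [Algebra k E] [PerfectField k]
    (htr : Algebra.trdeg k E = 2) (s : SM k E) (f : E) (hCO : CO s f) (t : s.T)
    (O : Subalgebra k E) (hO : IsPt (s.M.A t) O) :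
    ∃ z ∈ Submonoid.closure (bdy s.M O), f * z ∈ O :=
  po_aux htr s f (fun W hW => (hCO W hW).imp id And.left) t O hO.le

end Pool.Agent.W417.WD
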